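import Pool.Agent.TH581.HH.Stm

/-!
From the coordinate direction to all directions, and the average over the directions.
-/

set_option autoImplicit false

noncomputable section

open MeasureTheory Set
open scoped ENNReal NNReal Pointwise

namespace Pool.Agent.TH889.HH

open Pool.Agent.TH581.HH

variable {n N m : ℕ}

lemma inner_rot (R : E n ≃ₗᵢ[ℝ] E n) (v x : E n) :
    inner ℝ (R v) x = inner ℝ v (R.symm x) := by
  conv_lhs => rw [← R.apply_symm_apply x]
  exact R.inner_map_map _ _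

lemma poly_rot (R : E n ≃ₗᵢ[ℝ] E n) (ν : Fin N → E n) (b : Fin N → ℝ) :
    Poly (fun i => R (ν i)) b = R.symm ⁻¹' Poly ν b := by
  ext x
  simp only [Pool.Agent.TH581.HH.Poly, mem_ofPred_eq, mem_preimage, inner_rot]

lemma fac_rot (R : E n ≃ₗᵢ[ℝ] E n) (ν : Fin N → E n) (b : Fin N → ℝ) (i : Fin N) :
    Fac (fun i => R (ν i)) b i = R.symm ⁻¹' Fac ν b i := by
  ext x
  simp only [Fac, poly_rot, mem_ofPred_eq, mem_preimage, inner_rot]

lemma closed_poly (ν : Fin N → E n) (b : Fin N → ℝ) : IsClosed (Poly ν b) := by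
  have : Poly ν b = ⋂ i, {x | inner ℝ (ν i) x ≤ b i} := by
    ext x
    simp [Pool.Agent.TH581.HH.Poly]
  rw [this]
  exact isClosed_iInter fun i => isClosed_le (by fun_prop) continuous_const

lemma closed_fac (ν : Fin N → E n) (b : Fin N → ℝ) (i : Fin N) : IsClosed (Fac ν b i) :=
  (closed_poly ν b).inter (isClosed_eq (by fun_prop) continuous_const)

lemma good_rot (R : E n ≃ₗᵢ[ℝ] E n) {ν : Fin N → E n} {b : Fin N → ℝ} (h : Good ν b) :
    Good (fun i => R (ν i)) b := by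
  refine ⟨fun i => by rw [R.norm_map]; exact h.unit i,
    fun i j hij hb => h.inj i j (R.injective hij) hb, ?_, ?_⟩
  · rw [poly_rot]
    have : R.symm ⁻¹' Poly ν b = R '' Poly ν b := by
      ext x
      constructor
      · intro hx
        exact ⟨R.symm x, hx, R.apply_symm_apply x⟩
      · rintro ⟨y, hy, rfl⟩
        show R.symm (R y) ∈ Poly ν b
        rwa [R.symm_apply_apply]
    rw [this]
    exact h.cpt.image R.continuous
  · rw [poly_rot]
    obtain ⟨y, hy⟩ := h.int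
    refine ⟨R y, ?_⟩
    have h1 : R.symm ⁻¹' interior (Poly ν b) ⊆ interior (R.symm ⁻¹' Poly ν b) :=
      preimage_interior_subset_interior_preimage R.symm.continuous
    apply h1
    show R.symm (R y) ∈ interior (Poly ν b)
    rwa [R.symm_apply_apply]

lemma exists_rot {u w : E n} (h : ‖u‖ = ‖w‖) : ∃ R : E n ≃ₗᵢ[ℝ] E n, R u = w :=
  ⟨_, Submodule.reflection_sub h⟩

/-- the first basis vector -/
def e0 (m : ℕ) : E (m + 1) := EuclideanSpace.single 0 1

lemma norm_e0 : ‖e0 m‖ = 1 := by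
  unfold e0
  rw [EuclideanSpace.norm_single]
  simp

lemma inner_e0 (x : E (m + 1)) : inner ℝ x (e0 m) = x 0 := by
  unfold e0
  rw [EuclideanSpace.inner_single_right]
  simp

lemma star_unit (h : S_STAR) {ν : Fin N → E (m + 1)} {b : Fin N → ℝ} (hG : Good ν b)
    {f : E (m + 1) → ℝ} (hf : Continuous f) (hf0 : ∀ x, 0 ≤ f x) (hc : ConvexOn ℝ (Poly ν b) f)
    {u : E (m + 1)} (hu : ‖u‖ = 1) :
    (∑ i, ENNReal.ofReal |inner ℝ (ν i) u| * (μHE[m] : Measure (E (m + 1))) (Fac ν b i)) *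
        ∫⁻ x in Poly ν b, ENNReal.ofReal (f x) ≤
      (m + 1 : ℕ) * volume (Poly ν b) *
        ∑ i, ENNReal.ofReal |inner ℝ (ν i) u| *
          ∫⁻ x in Fac ν b i, ENNReal.ofReal (f x) ∂(μHE[m] : Measure (E (m + 1))) := by
  obtain ⟨R, hR⟩ := exists_rot (hu.trans norm_e0.symm)
  have h1 := h m N (fun i => R (ν i)) b (good_rot R hG) (fun x => f (R.symm x))
    (hf.comp R.symm.continuous) (fun x => hf0 _) (by
      rw [poly_rot]
      exact hc.comp_linearMap (R.symm.toLinearEquiv : E (m + 1) →ₗ[ℝ] E (m + 1)))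
  have hco : ∀ i, (R (ν i)) 0 = inner ℝ (ν i) u := by
    intro i
    rw [← inner_e0, ← hR, R.inner_map_map]
  have hfm : Measurable fun x => ENNReal.ofReal (f x) := hf.measurable.ennreal_ofReal
  have hv : MeasurePreserving R.symm (volume : Measure (E (m + 1))) volume :=
    R.symm.measurePreserving
  have hs : MeasurePreserving R.symm (μHE[m] : Measure (E (m + 1))) μHE[m] :=
    R.symm.toIsometryEquiv.measurePreserving_euclideanHausdorffMeasure m
  have e1 : ∫⁻ x in Poly (fun i => R (ν i)) b, ENNReal.ofReal (f (R.symm x)) =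
      ∫⁻ x in Poly ν b, ENNReal.ofReal (f x) := by
    rw [poly_rot]
    exact hv.setLIntegral_comp_preimage (closed_poly ν b).measurableSet hfm
  have e2 : volume (Poly (fun i => R (ν i)) b) = volume (Poly ν b) := by
    rw [poly_rot]
    exact hv.measure_preimage (closed_poly ν b).measurableSet.nullMeasurableSet
  have e3 : ∀ i, (μHE[m] : Measure (E (m + 1))) (Fac (fun i => R (ν i)) b i) =
      (μHE[m] : Measure (E (m + 1))) (Fac ν b i) := by
    intro i
    rw [fac_rot]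
    exact hs.measure_preimage (closed_fac ν b i).measurableSet.nullMeasurableSet
  have e4 : ∀ i, ∫⁻ x in Fac (fun i => R (ν i)) b i, ENNReal.ofReal (f (R.symm x))
      ∂(μHE[m] : Measure (E (m + 1))) =
      ∫⁻ x in Fac ν b i, ENNReal.ofReal (f x) ∂(μHE[m] : Measure (E (m + 1))) := by
    intro i
    rw [fac_rot]
    exact hs.setLIntegral_comp_preimage (closed_fac ν b i).measurableSet hfm
  simp only [e1, e2, e3, e4, hco] at h1
  exact h1

lemma star_all (h : S_STAR) {ν : Fin N → E (m + 1)} {b : Fin N → ℝ} (hG : Good ν b)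
    {f : E (m + 1) → ℝ} (hf : Continuous f) (hf0 : ∀ x, 0 ≤ f x) (hc : ConvexOn ℝ (Poly ν b) f)
    (u : E (m + 1)) :
    (∑ i, ENNReal.ofReal |inner ℝ (ν i) u| * (μHE[m] : Measure (E (m + 1))) (Fac ν b i)) *
        ∫⁻ x in Poly ν b, ENNReal.ofReal (f x) ≤
      (m + 1 : ℕ) * volume (Poly ν b) *
        ∑ i, ENNReal.ofReal |inner ℝ (ν i) u| *
          ∫⁻ x in Fac ν b i, ENNReal.ofReal (f x) ∂(μHE[m] : Measure (E (m + 1))) := by
  by_cases hu : u = 0
  · subst hu
    simp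
  · have hn : ‖u‖ ≠ 0 := norm_ne_zero_iff.2 hu
    have hw : ‖(‖u‖⁻¹ : ℝ) • u‖ = 1 := by
      rw [norm_smul, norm_inv, norm_norm, inv_mul_cancel₀ hn]
    have e1 : ∀ i, ENNReal.ofReal |inner ℝ (ν i) u| =
        ENNReal.ofReal ‖u‖ * ENNReal.ofReal |inner ℝ (ν i) ((‖u‖⁻¹ : ℝ) • u)| := by
      intro i
      rw [← ENNReal.ofReal_mul (norm_nonneg u), inner_smul_right, abs_mul, abs_inv, abs_norm,
        ← mul_assoc, mul_inv_cancel₀ hn, one_mul]
    have h1 := star_unit h hG hf hf0 hc hw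
    simp only [e1, mul_assoc]
    rw [← Finset.mul_sum, ← Finset.mul_sum, mul_assoc]
    calc ENNReal.ofReal ‖u‖ * ((∑ i, ENNReal.ofReal |inner ℝ (ν i) ((‖u‖⁻¹ : ℝ) • u)| *
          (μHE[m] : Measure (E (m + 1))) (Fac ν b i)) * ∫⁻ x in Poly ν b, ENNReal.ofReal (f x))
        ≤ ENNReal.ofReal ‖u‖ * _ := mul_le_mul_right h1 _
      _ = _ := by ring

/-- the mean width of the unit ball -/
def kap (m : ℕ) (v : E (m + 1)) : ℝ≥0∞ :=
  ∫⁻ u in Metric.ball (0 : E (m + 1)) 1, ENNReal.ofReal |inner ℝ v u|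

lemma meas_inner (v : E (m + 1)) : Measurable fun u : E (m + 1) => ENNReal.ofReal |inner ℝ v u| := by
  have : Continuous fun u : E (m + 1) => |inner ℝ v u| := by fun_prop
  exact this.measurable.ennreal_ofReal

lemma kap_eq {v : E (m + 1)} (hv : ‖v‖ = 1) : kap m v = kap m (e0 m) := by
  obtain ⟨R, hR⟩ := exists_rot (hv.trans norm_e0.symm)
  have h1 : MeasurePreserving R (volume : Measure (E (m + 1))) volume := R.measurePreserving
  have h2 := h1.setLIntegral_comp_preimage (s := Metric.ball (0 : E (m + 1)) 1)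
    Metric.isOpen_ball.measurableSet (meas_inner (e0 m))
  have h3 : R ⁻¹' Metric.ball (0 : E (m + 1)) 1 = Metric.ball 0 1 := by
    ext x
    simp
  rw [h3] at h2
  unfold kap
  rw [← h2]
  refine lintegral_congr fun u => ?_
  rw [← hR, R.inner_map_map]

lemma kap_ne_top : kap m (e0 m) ≠ ⊤ := by
  have h1 : kap m (e0 m) ≤ ∫⁻ _u in Metric.ball (0 : E (m + 1)) 1, 1 := by
    refine setLIntegral_mono' Metric.isOpen_ball.measurableSet fun u hu => ?_
    rw [← ENNReal.ofReal_one]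
    refine ENNReal.ofReal_le_ofReal ?_
    refine (abs_real_inner_le_norm _ _).trans ?_
    rw [norm_e0, one_mul]
    exact (mem_ball_zero_iff.1 hu).le
  rw [lintegral_one, Measure.restrict_apply_univ] at h1
  exact ne_top_of_le_ne_top Metric.isBounded_ball.measure_lt_top.ne h1

lemma kap_ne_zero : kap m (e0 m) ≠ 0 := by
  have hsub : Metric.ball ((1 / 2 : ℝ) • e0 m) (1 / 4) ⊆ Metric.ball (0 : E (m + 1)) 1 := by
    intro u hu
    rw [Metric.mem_ball, dist_eq_norm] at hu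
    rw [mem_ball_zero_iff]
    calc ‖u‖ = ‖(u - (1 / 2 : ℝ) • e0 m) + (1 / 2 : ℝ) • e0 m‖ := by rw [sub_add_cancel]
      _ ≤ ‖u - (1 / 2 : ℝ) • e0 m‖ + ‖(1 / 2 : ℝ) • e0 m‖ := norm_add_le _ _
      _ < 1 / 4 + 1 / 2 := by
          have : ‖(1 / 2 : ℝ) • e0 m‖ = 1 / 2 := by
            rw [norm_smul, norm_e0, mul_one, Real.norm_of_nonneg (by norm_num)]
          linarith
      _ < 1 := by norm_num
  have h1 : ENNReal.ofReal (1 / 4) * volume (Metric.ball ((1 / 2 : ℝ) • e0 m) (1 / 4)) ≤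
      kap m (e0 m) := by
    unfold kap
    calc ENNReal.ofReal (1 / 4) * volume (Metric.ball ((1 / 2 : ℝ) • e0 m) (1 / 4))
        = ∫⁻ _u in Metric.ball ((1 / 2 : ℝ) • e0 m) (1 / 4), ENNReal.ofReal (1 / 4) := by
          rw [setLIntegral_const]
      _ ≤ ∫⁻ u in Metric.ball ((1 / 2 : ℝ) • e0 m) (1 / 4),
            ENNReal.ofReal |inner ℝ (e0 m) u| := by
          refine setLIntegral_mono' Metric.isOpen_ball.measurableSet fun u hu => ?_
          refine ENNReal.ofReal_le_ofReal ?_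
          rw [Metric.mem_ball, dist_eq_norm] at hu
          have h2 : inner ℝ (e0 m) u = 1 / 2 + inner ℝ (e0 m) (u - (1 / 2 : ℝ) • e0 m) := by
            rw [inner_sub_right, inner_smul_right, real_inner_self_eq_norm_sq, norm_e0]
            ring
          have h3 := abs_real_inner_le_norm (e0 m) (u - (1 / 2 : ℝ) • e0 m)
          rw [norm_e0, one_mul] at h3
          have h4 := (abs_le.1 (h3.trans hu.le)).1
          have h5 : (1 / 4 : ℝ) ≤ inner ℝ (e0 m) u := by rw [h2]; linarith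
          exact h5.trans (le_abs_self _)
      _ ≤ _ := lintegral_mono_set hsub
  have h2 : 0 < ENNReal.ofReal (1 / 4) * volume (Metric.ball ((1 / 2 : ℝ) • e0 m) (1 / 4)) := by
    refine ENNReal.mul_pos ?_ (Metric.measure_ball_pos _ _ (by norm_num)).ne'
    rw [Ne, ENNReal.ofReal_eq_zero]
    norm_num
  exact (h2.trans_le h1).ne'

theorem t_sum (h : S_STAR) : S_SUM := by
  intro m N ν b hG f hf hf0 hc
  set s : Fin N → ℝ≥0∞ := fun i => (μHE[m] : Measure (E (m + 1))) (Fac ν b i) with hs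
  set X : ℝ≥0∞ := ∫⁻ x in Poly ν b, ENNReal.ofReal (f x) with hX
  set Y : ℝ≥0∞ := (m + 1 : ℕ) * volume (Poly ν b) with hY
  set I : Fin N → ℝ≥0∞ := fun i =>
    ∫⁻ x in Fac ν b i, ENNReal.ofReal (f x) ∂(μHE[m] : Measure (E (m + 1))) with hI
  have h1 : ∀ u : E (m + 1), (∑ i, ENNReal.ofReal |inner ℝ (ν i) u| * s i) * X ≤
      Y * ∑ i, ENNReal.ofReal |inner ℝ (ν i) u| * I i := fun u => star_all h hG hf hf0 hc u
  have hm : ∀ (c : Fin N → ℝ≥0∞), Measurable fun u : E (m + 1) =>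
      ∑ i, ENNReal.ofReal |inner ℝ (ν i) u| * c i := fun c =>
    Finset.measurable_sum _ fun i _ => (meas_inner (ν i)).mul_const (c i)
  have hint : ∀ (c : Fin N → ℝ≥0∞), ∫⁻ u in Metric.ball (0 : E (m + 1)) 1,
      ∑ i, ENNReal.ofReal |inner ℝ (ν i) u| * c i = kap m (e0 m) * ∑ i, c i := by
    intro c
    rw [lintegral_finsetSum _ fun i _ => (meas_inner (ν i)).mul_const (c i), Finset.mul_sum]
    refine Finset.sum_congr rfl fun i _ => ?_
    rw [lintegral_mul_const _ (meas_inner (ν i))]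
    congr 1
    exact kap_eq (hG.unit i)
  have h2 : ∫⁻ u in Metric.ball (0 : E (m + 1)) 1,
      (∑ i, ENNReal.ofReal |inner ℝ (ν i) u| * s i) * X ≤
      ∫⁻ u in Metric.ball (0 : E (m + 1)) 1, Y * ∑ i, ENNReal.ofReal |inner ℝ (ν i) u| * I i :=
    lintegral_mono fun u => h1 u
  rw [lintegral_mul_const _ (hm s), lintegral_const_mul _ (hm I), hint, hint] at h2
  have hk0 : kap m (e0 m) ≠ 0 := kap_ne_zero
  have hkt : kap m (e0 m) ≠ ⊤ := kap_ne_top
  have key : ∀ A : ℝ≥0∞, (kap m (e0 m))⁻¹ * (kap m (e0 m) * A) = A := fun A => by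
    rw [← mul_assoc, ENNReal.inv_mul_cancel hk0 hkt, one_mul]
  calc (∑ i, s i) * X = (kap m (e0 m))⁻¹ * (kap m (e0 m) * ((∑ i, s i) * X)) := (key _).symm
    _ ≤ (kap m (e0 m))⁻¹ * (kap m (e0 m) * (Y * ∑ i, I i)) := by
        refine mul_le_mul_right ?_ _
        calc kap m (e0 m) * ((∑ i, s i) * X) = kap m (e0 m) * (∑ i, s i) * X := by ring
          _ ≤ Y * (kap m (e0 m) * ∑ i, I i) := h2
          _ = _ := by ring
    _ = Y * ∑ i, I i := key _

end Pool.Agent.TH889.HH
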